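import Pool.Agent.Y793.E.Ml2
import Pool.Agent.R367.IG.OutL
import Pool.Agent.R367.IG.Sec

/-!
Small faithful permutation representations of alternating fibre powers, and commutator towers as
Galois groups over number fields.
-/

set_option autoImplicit false
set_option linter.unusedSectionVars false

namespace Pool.Agent.R630.ML

open Pool.Agent.H391R2 Pool.Agent.H391R2.T4 Pool.Agent.Y793 Pool.Agent.R367.IG

section act

variable {Γ E : Type} [Group Γ] [Group E] (α : E →* Γ) (m : ℕ)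

theorem alt_core [Finite E] (hm : 4 ≤ m) :
    ∃ U : Subgroup (AltEP α m), U.normalCore = ⊥ ∧ U.index ≤ Nat.card E * m := by
  classical
  let a3 : MulAction (Wr E m) (E × Fin m) := TH444.ML.wrAct E m
  let a4 : MulAction (AltEP α m) (E × Fin m) :=
    MulAction.compHom _ ((MonoidHom.fst (Wr E m) Γ).comp (AltEP α m).subtype)
  have hdef : ∀ (z : AltEP α m) (x : E × Fin m), z • x =
      (z.1.1.left (z.1.1.right x.2) * x.1, z.1.1.right x.2) := fun _ _ => rfl
  let j₀ : Fin m := ⟨0, by omega⟩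
  obtain ⟨U, h1, h2⟩ := core_of_action (AltEP α m) (E × Fin m) (1, j₀) (by
    rintro ⟨b, j⟩
    obtain ⟨σ, hs1, hs2⟩ := exists_even (by omega : 3 ≤ m) j₀ j
    refine ⟨⟨((⟨fun _ => b, σ⟩ : Wr E m), α b), Subgroup.mem_inf.2 ⟨fun _ => rfl, hs1⟩⟩, ?_⟩
    rw [hdef]
    refine Prod.ext ?_ ?_
    · exact mul_one b
    · exact hs2) (by
    intro z hz
    have hr : z.1.1.right = 1 := by
      ext j
      have := congrArg (fun x : E × Fin m => (x.2 : ℕ)) (hz (1, j))
      simpa [hdef] using this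
    have hl : ∀ j, z.1.1.left j = 1 := by
      intro j
      have := congrArg (fun x : E × Fin m => x.1) (hz (1, j))
      rw [hdef, hr] at this
      simpa using this
    have hρ : z.1.2 = 1 := by
      have h3 : α (z.1.1.left j₀) = z.1.2 := (Subgroup.mem_inf.1 z.2).1 j₀
      rw [← h3, hl j₀]
      exact map_one α
    apply Subtype.ext
    refine Prod.ext ?_ hρ
    apply SemidirectProduct.ext
    · funext j
      exact hl j
    · exact hr)
  refine ⟨U, h1, h2.trans_eq ?_⟩
  rw [Nat.card_prod, Nat.card_fin]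

theorem alt_card [Finite E] [Finite Γ] (hm : 2 ≤ m) :
    m.factorial ≤ 2 * Nat.card (AltEP α m) := by
  have hf : Finite (Wr E m) := finite_wr E m
  have hf2 : Finite (AltEP α m) := inferInstance
  have : Nontrivial (Fin m) := Fin.nontrivial_iff_two_le.2 hm
  have h1 : Nat.card (alternatingGroup (Fin m)) * 2 = m.factorial := by
    have := (alternatingGroup (Fin m)).card_mul_index
    rw [alternatingGroup.index_eq_two, Nat.card_perm, Nat.card_fin] at this
    exact this
  have h2 : Nat.card (alternatingGroup (Fin m)) ≤ Nat.card (AltEP α m) := by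
    let f : alternatingGroup (Fin m) → AltEP α m := fun σ =>
      ⟨((⟨1, σ.1⟩ : Wr E m), 1), Subgroup.mem_inf.2 ⟨fun _ => map_one _,
        Equiv.Perm.mem_alternatingGroup.1 σ.2⟩⟩
    apply Nat.card_le_card_of_injective f
    intro σ τ h
    have h3 : (f σ).1.1.right = (f τ).1.1.right := by rw [h]
    exact Subtype.ext h3
  omega

theorem alt_small [Finite E] [Finite Γ] (hm : 128 * Nat.card E ^ 2 + 4 ≤ m) :
    2 ≤ Nat.card (AltEP α m) ∧ ∃ U : Subgroup (AltEP α m), U.normalCore = ⊥ ∧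
      8 * U.index * (U.index + 1) ≤ Nat.card (AltEP α m) := by
  have hc1 : 1 ≤ Nat.card E := Nat.card_pos
  have h1 := alt_card α m (by omega)
  have h2 := num_bound hc1 (by omega : 128 * Nat.card E ^ 2 + 3 ≤ m)
  have h3 : 1 ≤ Nat.card E * m := Nat.one_le_iff_ne_zero.2 (Nat.mul_ne_zero (by omega) (by omega))
  refine ⟨by nlinarith, ?_⟩
  obtain ⟨U, hU1, hU2⟩ := alt_core α m (by omega)
  refine ⟨U, hU1, ?_⟩
  have h4 : 8 * U.index * (U.index + 1) ≤ 8 * (Nat.card E * m) * (Nat.card E * m + 1) := by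
    gcongr
  omega

end act

/-- The commutator towers over all fields of characteristic zero, uniformly. -/
theorem comm_unif (G : Type) [Group G] [Finite G] (n : ℕ)
    (hn : ((3 * Nat.card G + 2).factorial) ^ 3 ≤ n) :
    ∃ k₀ : ℕ, ∀ k ≥ k₀, ∀ (K : Type) [Field K] [CharZero K],
      RegSol K K (AWr (commutator (Wr G n)) (8 * k + 4)) 1 := by
  obtain ⟨k₀, h2⟩ := main_unif ℚ G n hn
  refine ⟨k₀, fun k hk K _ _ => ?_⟩
  have hf : Finite (Wr G n) := finite_wr G n
  have hf2 : Finite (Wr (commutator (Wr G n)) (8 * k + 4)) := finite_wr _ _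
  exact TH444.TW.reg_base ℚ K _ (h2 k hk)

/-- The commutator towers over all number fields. -/
theorem comm_real (G : Type) [Group G] [Finite G] (n : ℕ)
    (hn : ((3 * Nat.card G + 2).factorial) ^ 3 ≤ n) :
    ∃ k₀ : ℕ, ∀ k ≥ k₀,
      Finite (AWr (commutator (Wr G n)) (8 * k + 4)) ∧
      2 ≤ Nat.card (AWr (commutator (Wr G n)) (8 * k + 4)) ∧
      (∃ U : Subgroup (AWr (commutator (Wr G n)) (8 * k + 4)), U.normalCore = ⊥ ∧
        8 * U.index * (U.index + 1) ≤ Nat.card (AWr (commutator (Wr G n)) (8 * k + 4))) ∧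
      ∀ (K : Type) [Field K] [NumberField K],
        (TH444.ML.Gal K (AlgebraicClosure K) (AWr (commutator (Wr G n)) (8 * k + 4))).Nonempty := by
  obtain ⟨k₀, h2⟩ := comm_unif G n hn
  refine ⟨k₀ + 2, fun k hk => ?_⟩
  have hf : Finite (Wr G n) := finite_wr G n
  have hf2 : Finite (Wr (commutator (Wr G n)) (8 * k + 4)) := finite_wr _ _
  have hf3 : Finite (AWr (commutator (Wr G n)) (8 * k + 4)) := inferInstance
  obtain ⟨hc, hU⟩ := awr_data (commutator (Wr G n)) (8 * k + 4) (by omega)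
  refine ⟨hf3, hc, hU, fun K _ _ => ?_⟩
  exact gal_of_real K (AlgebraicClosure K) _ (hil_out K _ (hilb_numberField K) (h2 k (by omega) K))

/-- The commutator towers above a Galois extension. -/
theorem above_real (K L : Type) [Field K] [NumberField K] [Field L] [Algebra K L]
    [FiniteDimensional K L] [IsGalois K L] (G : Type) [Group G] [Finite G]
    (φ : (L ≃ₐ[K] L) →* MulAut G) (χ : (L ≃ₐ[K] L) →* ℤˣ) (n : ℕ)
    (hn : ((3 * Nat.card G + 2).factorial) ^ 3 ≤ n) :
    ∃ k₀ : ℕ, ∀ k ≥ k₀,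
      Finite (AltEP (twNProj φ χ n) (8 * k + 4)) ∧
      2 ≤ Nat.card (AltEP (twNProj φ χ n) (8 * k + 4)) ∧
      (∃ U : Subgroup (AltEP (twNProj φ χ n) (8 * k + 4)), U.normalCore = ⊥ ∧
        8 * U.index * (U.index + 1) ≤ Nat.card (AltEP (twNProj φ χ n) (8 * k + 4))) ∧
      (TH444.ML.Gal K (AlgebraicClosure K) (AltEP (twNProj φ χ n) (8 * k + 4))).Nonempty := by
  have hf0 : Finite (Wr G n) := finite_wr G n
  have hf1 : Finite (EG φ n) := finite_eg φ n
  have hf2 : Finite (TwNO φ χ n) := inferInstance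
  obtain ⟨k₀, hk₀⟩ := hil_towerL K L (hilb_numberField K) G φ χ n hn
  refine ⟨max k₀ (128 * Nat.card (TwNO φ χ n) ^ 2 + 4), fun k hk => ?_⟩
  have hk1 : k₀ ≤ k := le_trans (le_max_left _ _) hk
  have hk2 : 128 * Nat.card (TwNO φ χ n) ^ 2 + 4 ≤ k := le_trans (le_max_right _ _) hk
  have hf3 : Finite (Wr (TwNO φ χ n) (8 * k + 4)) := finite_wr _ _
  have hf4 : Finite (AltEP (twNProj φ χ n) (8 * k + 4)) := inferInstance
  obtain ⟨h2, hU⟩ := alt_small (twNProj φ χ n) (8 * k + 4) (by omega)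
  refine ⟨hf4, h2, hU, ?_⟩
  obtain ⟨F, i1, i2, i3, i4, i5, i6, i7, i8, γ, -⟩ := hk₀ k hk1
  exact gal_of_real K (AlgebraicClosure K) _ ⟨F, i1, i2, i8, ⟨γ.symm⟩⟩

end Pool.Agent.R630.ML
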