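import Pool.Agent.R367.IG.RealN
import Pool.Agent.R630.ML.Ct

/-!
Towers above a Galois group over a Hilbertian field.
-/

set_option autoImplicit false
set_option linter.unusedSectionVars false

namespace Pool.Agent.R630.ML

open Nfff32c05 Pool.Agent.H391R2 Pool.Agent.H391R2.T4 Pool.Agent.Y793 Pool.Agent.R367.IG

/-- Transport of the lower group along an isomorphism. -/
def lowCongr {Γ Δ G : Type} [Group Γ] [Group Δ] [Group G] (f : Γ ≃* Δ) (φ : Γ →* MulAut G)
    (χ : Γ →* ℤˣ) (n : ℕ) :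
    TwNO φ χ n ≃* TwNO (φ.comp f.symm.toMonoidHom) (χ.comp f.symm.toMonoidHom) n where
  toFun z := ⟨⟨z.1.left, f z.1.right⟩, z.2.1, by
    change _ = χ (f.symm (f z.1.right))
    rw [f.symm_apply_apply]
    exact z.2.2⟩
  invFun z := ⟨⟨z.1.left, f.symm z.1.right⟩, z.2.1, z.2.2⟩
  left_inv z := by
    apply Subtype.ext
    apply SemidirectProduct.ext
    · rfl
    · exact f.symm_apply_apply _
  right_inv z := by
    apply Subtype.ext
    apply SemidirectProduct.ext
    · rfl
    · exact f.apply_symm_apply _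
  map_mul' a b := by
    apply Subtype.ext
    apply SemidirectProduct.ext
    · change a.1.left * wrAct φ n a.1.right b.1.left =
        a.1.left * wrAct (φ.comp f.symm.toMonoidHom) n (f a.1.right) b.1.left
      congr 1
      apply SemidirectProduct.ext
      · funext i
        change φ a.1.right _ = φ (f.symm (f a.1.right)) _
        rw [f.symm_apply_apply]
      · rfl
    · exact f.map_mul _ _

/-- Transport of the alternating fibre power. -/
def fibCongr {Γ Δ E E' : Type} [Group Γ] [Group Δ] [Group E] [Group E'] (f : Γ ≃* Δ)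
    (g : E ≃* E') (α : E →* Γ) (α' : E' →* Δ) (h : ∀ x, α' (g x) = f (α x)) (r : ℕ) :
    AltEP α r ≃* AltEP α' r where
  toFun z := ⟨(⟨fun i => g (z.1.1.left i), z.1.1.right⟩, f z.1.2), by
    refine Subgroup.mem_inf.2 ⟨fun i => ?_, (Subgroup.mem_inf.1 z.2).2⟩
    have h1 := (Subgroup.mem_inf.1 z.2).1 i
    change α' (g (z.1.1.left i)) = f z.1.2
    rw [h, h1]⟩
  invFun z := ⟨(⟨fun i => g.symm (z.1.1.left i), z.1.1.right⟩, f.symm z.1.2), by
    refine Subgroup.mem_inf.2 ⟨fun i => ?_, (Subgroup.mem_inf.1 z.2).2⟩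
    have h1 := (Subgroup.mem_inf.1 z.2).1 i
    change α (g.symm (z.1.1.left i)) = f.symm z.1.2
    rw [← h1, ← f.symm_apply_apply (α (g.symm (z.1.1.left i))), ← h, g.apply_symm_apply]⟩
  left_inv z := by
    apply Subtype.ext
    refine Prod.ext ?_ (f.symm_apply_apply _)
    apply SemidirectProduct.ext
    · funext i
      exact g.symm_apply_apply _
    · rfl
  right_inv z := by
    apply Subtype.ext
    refine Prod.ext ?_ (f.apply_symm_apply _)
    apply SemidirectProduct.ext
    · funext i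
      exact g.apply_symm_apply _
    · rfl
  map_mul' a b := by
    apply Subtype.ext
    refine Prod.ext ?_ (f.map_mul _ _)
    apply SemidirectProduct.ext
    · funext i
      exact g.map_mul _ _
    · rfl

/-- The towers above a Galois group are Galois groups, over Hilbertian fields. -/
theorem real_tower (K : Type) [Field K] [CharZero K] (hK : HilbField K) (Γ : Type) [Group Γ]
    [Finite Γ] (h : IsRealizable K Γ) (G : Type) [Group G] [Finite G] (φ : Γ →* MulAut G)
    (χ : Γ →* ℤˣ) (n : ℕ) (hn : ((3 * Nat.card G + 2).factorial) ^ 3 ≤ n) :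
    ∃ k₀ : ℕ, ∀ k ≥ k₀, IsRealizable K (AltEP (twNProj φ χ n) (8 * k + 4)) := by
  obtain ⟨L, i1, i2, i3, i4, ⟨f⟩⟩ := Pool.Agent.TH59.WX.exists_gal_of K Γ h
  obtain ⟨k₀, hk₀⟩ := hil_towerL K L hK G (φ.comp f.symm.toMonoidHom)
    (χ.comp f.symm.toMonoidHom) n hn
  refine ⟨k₀, fun k hk => ?_⟩
  obtain ⟨F', j1, j2, j3, j4, j5, j6, j7, j8, γ, -⟩ := hk₀ k hk
  let e := fibCongr f (lowCongr f φ χ n) (twNProj φ χ n)
    (twNProj (φ.comp f.symm.toMonoidHom) (χ.comp f.symm.toMonoidHom) n) (fun _ => rfl) (8 * k + 4)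
  exact ⟨⟨⟨F', j1, j2, j8, (γ.trans e.symm).symm⟩⟩⟩

end Pool.Agent.R630.ML
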