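import Mathlib
import Pool.Agent.R70.IG.Real

/-!
Galois groups over the subfields of the fixed field of the point stabilizers.
-/

set_option autoImplicit false
set_option linter.unusedSectionVars false

namespace Pool.Agent.R630.ML

open Pool.Agent.H391R2 Nfff32c05 IntermediateField Pool.Agent.R70.IG

open scoped Topology in
theorem cont_res' (k K L : Type) [Field k] [Field K] [Field L] [Algebra k K] [Algebra K L]
    [Algebra k L] [IsScalarTower k K L] [Algebra.IsAlgebraic k L] :
    Continuous (AlgEquiv.restrictScalarsHom k : (L ≃ₐ[K] L) →* (L ≃ₐ[k] L)) := by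
  have : Algebra.IsAlgebraic K L := Algebra.IsAlgebraic.tower_top (K := k) K
  have : Algebra.IsIntegral K L := Algebra.IsAlgebraic.isIntegral
  apply continuous_of_continuousAt_one
  intro s hs
  rw [map_one, krullTopology_mem_nhds_one_iff] at hs
  obtain ⟨E, hE, hEs⟩ := hs
  rw [Filter.mem_map]
  let b := Module.finBasis k E
  have h1 : IsOpen (⋂ i, (MulAction.stabilizer (L ≃ₐ[K] L) ((b i : E) : L) : Set (L ≃ₐ[K] L))) :=
    isOpen_iInter_of_finite fun i => stabilizer_isOpen_of_isIntegral _
  refine Filter.mem_of_superset (h1.mem_nhds ?_) ?_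
  · rw [Set.mem_iInter]
    intro i
    exact one_mem _
  · intro τ hτ
    rw [Set.mem_iInter] at hτ
    apply hEs
    have h2 : ((τ.restrictScalars k).toLinearMap).comp E.val.toLinearMap = E.val.toLinearMap := by
      apply b.ext
      intro i
      exact hτ i
    rw [SetLike.mem_coe, IntermediateField.mem_fixingSubgroup_iff]
    intro x hx
    exact LinearMap.congr_fun h2 ⟨x, hx⟩

section

variable {k L : Type} [Field k] [Field L] [Algebra k L] {ι : Type} {G : ι → Type}
  [∀ i, Group (G i)]
  {n : ι → ℕ} (e : (L ≃ₐ[k] L) ≃* ∀ i, Wr (G i) (n i)) (z : ∀ i, Fin (n i))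

/-- The stabilizer of one point. -/
def W1 (i : ι) : Subgroup (L ≃ₐ[k] L) :=
  (St (G i) (n i) (z i)).comap ((Pi.evalMonoidHom _ i).comp e.toMonoidHom)

theorem mem_W1 {i : ι} {s : L ≃ₐ[k] L} : s ∈ W1 e z i ↔ e s i ∈ St (G i) (n i) (z i) := Iff.rfl

theorem U_le_W1 (i : ι) : U e z ≤ W1 e z i := fun _ hs => hs i

/-- The field of one point. -/
def F1 (i : ι) : IntermediateField k L := fixedField (W1 e z i)

theorem fix_F1 [IsGalois k L] (he : ∀ i, IsOpen {s : L ≃ₐ[k] L | e s i = 1}) (i : ι) :
    (F1 e z i).fixingSubgroup = W1 e z i :=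
  InfiniteGalois.fixingSubgroup_fixedField ⟨W1 e z i, closed_pre e he i _⟩

theorem F1_le (i : ι) : F1 e z i ≤ FF e z := by
  intro x hx
  have h1 := (IntermediateField.mem_fixedField_iff _ _).1 hx
  exact (IntermediateField.mem_fixedField_iff _ _).2 fun s hs => h1 s (U_le_W1 e z i hs)

theorem finrank_F1 [IsGalois k L] (he : ∀ i, IsOpen {s : L ≃ₐ[k] L | e s i = 1}) (i : ι) :
    Module.finrank k (F1 e z i) = n i := by
  rw [finrank_eq_fixingSubgroup_index, fix_F1 e z he i,
    index_stab e z {i} (W1 e z i) (fun s => by simp [mem_W1]), Finset.prod_singleton]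

/-- The field of one point, as a subfield of the field of all points. -/
def F1' (i : ι) : IntermediateField k (FF e z) := IntermediateField.restrict (F1_le e z i)

theorem mem_F1' {i : ι} {x : FF e z} : x ∈ F1' e z i ↔ (x : L) ∈ F1 e z i :=
  IntermediateField.mem_restrict (F1_le e z i) x

theorem finrank_F1' [IsGalois k L] (he : ∀ i, IsOpen {s : L ≃ₐ[k] L | e s i = 1}) (i : ι) :
    Module.finrank k (F1' e z i) = n i := by
  rw [← finrank_F1 e z he i]
  exact (IntermediateField.restrict_algEquiv (F1_le e z i)).toLinearEquiv.finrank_eq.symm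

theorem fd_F1' [IsGalois k L] (he : ∀ i, IsOpen {s : L ≃ₐ[k] L | e s i = 1}) (i : ι) :
    FiniteDimensional k (F1' e z i) := by
  apply FiniteDimensional.of_finrank_pos
  rw [finrank_F1' e z he i]
  exact (z i).pos

/-- The component of an automorphism over a field which contains the field of the point `z i`. -/
def evK [IsGalois k L] (he : ∀ i, IsOpen {s : L ≃ₐ[k] L | e s i = 1}) (i : ι)
    (K : IntermediateField k (FF e z)) (hK : F1' e z i ≤ K) :
    (L ≃ₐ[K] L) →* St (G i) (n i) (z i) where
  toFun s := ⟨e (AlgEquiv.restrictScalarsHom k s) i, by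
    rw [← mem_W1 e z, ← fix_F1 e z he i, IntermediateField.mem_fixingSubgroup_iff]
    intro x hx
    exact s.commutes ⟨⟨x, F1_le e z i hx⟩, hK ((mem_F1' e z).2 hx)⟩⟩
  map_one' := by
    apply Subtype.ext
    change e (AlgEquiv.restrictScalarsHom k 1) i = 1
    rw [map_one, map_one]
    rfl
  map_mul' := by
    intro a b
    apply Subtype.ext
    change e (AlgEquiv.restrictScalarsHom k (a * b)) i = _
    rw [map_mul, map_mul]
    rfl

theorem real_K [IsGalois k L] (he : ∀ i, IsOpen {s : L ≃ₐ[k] L | e s i = 1}) (i : ι)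
    (K : IntermediateField k (FF e z)) (hK : F1' e z i ≤ K) : RealIn K L (G i) := by
  classical
  have hKL : IsGalois K L := IsGalois.tower_top_of_isGalois k K L
  let w : (L ≃ₐ[K] L) →* G i := (val _ _ _).comp (evK e z he i K hK)
  have hw : ∀ s : L ≃ₐ[K] L, w s = (e (AlgEquiv.restrictScalarsHom k s) i).left (z i) :=
    fun s => rfl
  have hs : Function.Surjective w := by
    intro g
    let x : ∀ i, Wr (G i) (n i) := fun j =>
      if h : j = i then SemidirectProduct.inl (Pi.mulSingle (z j) (h ▸ g)) else 1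
    have hx : e.symm x ∈ U e z := by
      rw [mem_U]
      intro j
      rw [MulEquiv.apply_symm_apply]
      by_cases h : j = i
      · simp only [x, h, dif_pos]
        rfl
      · simp only [x, h, dif_neg, not_false_eq_true]
        exact one_mem _
    have h2 : e.symm x ∈ (FF e z).fixingSubgroup := by
      rw [fix_FF e z he]
      exact hx
    rw [IntermediateField.mem_fixingSubgroup_iff] at h2
    let s : L ≃ₐ[K] L := { (e.symm x) with
      commutes' := fun y => h2 _ (y : FF e z).2 }
    refine ⟨s, ?_⟩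
    have h3 : AlgEquiv.restrictScalarsHom k s = e.symm x := AlgEquiv.ext fun y => rfl
    rw [hw, h3, MulEquiv.apply_symm_apply]
    have h4 : x i = SemidirectProduct.inl (Pi.mulSingle (z i) g) := by
      simp only [x, dif_pos]
    rw [h4]
    change (Pi.mulSingle (z i) g : Fin (n i) → G i) (z i) = g
    exact Pi.mulSingle_eq_same _ _
  refine real_of_hom w hs ?_
  have h1 : (w.ker : Set (L ≃ₐ[K] L)) = (AlgEquiv.restrictScalarsHom k :
      (L ≃ₐ[K] L) →* (L ≃ₐ[k] L)) ⁻¹' {s : L ≃ₐ[k] L | e s i ∈
        ({x | x.left (z i) = 1} : Set (Wr (G i) (n i)))} := by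
    ext τ
    rw [SetLike.mem_coe, MonoidHom.mem_ker]
    exact Iff.rfl
  rw [h1]
  exact (closed_pre e he i _).preimage (cont_res' k K L)

end

end Pool.Agent.R630.ML
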