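import Mathlib
import Pool.Agent.R70.IG.Final
import Pool.Agent.R630.ML.Spa

/-!
Totally real fields of sparse degree: every finite group is a Galois group over all large number
fields in them.
-/

set_option autoImplicit false

namespace Pool.Agent.R630.ML

open Pool.Agent.H391R2 IntermediateField NumberField Pool.Agent.R70.IG

section

attribute [-instance] DivisionRing.toRatAlgebra

theorem main2 (A : Set ℕ) (hA : A.Infinite) (h0 : 0 ∉ A) :
    ∃ (F : Type) (_ : Field F) (_ : Algebra ℚ F), Algebra.IsAlgebraic ℚ F ∧ R70.IG.Small F ∧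
      (∀ E : IntermediateField ℚ F, FiniteDimensional ℚ E →
        ∃ T : Finset ℕ, (T : Set ℕ) ⊆ A ∧ Module.finrank ℚ E ∣ ∏ a ∈ T, a) ∧
      ∀ (H : Type) [Group H] [Finite H] (N : ℕ), ∃ K₀ : IntermediateField ℚ F,
        FiniteDimensional ℚ K₀ ∧ Module.finrank ℚ K₀ ∈ A ∧ N ≤ Module.finrank ℚ K₀ ∧
        ∀ K : IntermediateField ℚ F, K₀ ≤ K →
          ∃ (M : Type) (_ : Field M) (_ : Algebra K M), IsGalois K M ∧
            Nonempty (H ≃* (M ≃ₐ[K] M)) := by
  classical
  obtain ⟨n₀, C₀, hmain⟩ := Pool.Agent.TH377.IG.main_thm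
  let ι : Type := (Σ m : ℕ, Subgroup (Equiv.Perm (Fin m))) × ℕ
  let G : ι → Type := fun i => i.1.2
  let gG : ∀ i, Group (G i) := fun i => inferInstanceAs (Group i.1.2)
  have fG : ∀ i, Finite (G i) := fun i => inferInstanceAs (Finite i.1.2)
  obtain ⟨n, hn, hnA⟩ := exists_degrees A hA ι (fun i => n₀ (G i))
  obtain ⟨L, i1, i2, i3, e, he, htr, -, hloc⟩ := hmain ι G (fun _ => 0) n
    (fun i => Nat.zero_le _) (fun i => by
      rw [mul_zero, add_zero]
      exact (hnA i).2) (fun _ => ∅) (fun _ _ _ => 1) (fun i p _ h => absurd h (Finset.notMem_empty p))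
    ℚ
  have hpos : ∀ i, 0 < n i := fun i => Nat.pos_of_ne_zero fun h => h0 (h ▸ (hnA i).1)
  let z : ∀ i, Fin (n i) := fun i => ⟨0, hpos i⟩
  have hfW : ∀ i, Finite (Wr (G i) (n i)) := fun i =>
    Finite.of_equiv _ SemidirectProduct.equivProd.symm
  have hL : R70.IG.Small L := by
    refine ⟨htr, fun p _ => ?_⟩
    obtain ⟨σ, D, hD, -, hfin⟩ := hloc p
    refine finite_local e σ D hD ?_
    refine hfin.subset fun i hi => ⟨Finset.notMem_empty p, hi⟩
  have hFL : Algebra.IsAlgebraic (FF e z) L := Algebra.IsAlgebraic.tower_top (K := ℚ) (FF e z)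
  refine ⟨FF e z, (FF e z).toField, (FF e z).algebra', ?_, hL.sub (K := FF e z), ?_, ?_⟩
  · exact Algebra.IsAlgebraic.tower_bot ℚ (FF e z) L
  · intro E hE
    obtain ⟨T, hT⟩ := degree_FF e z he E
    refine ⟨T.image n, ?_, ?_⟩
    · intro a ha
      rw [Finset.coe_image] at ha
      obtain ⟨i, -, rfl⟩ := ha
      exact (hnA i).1
    · rw [Finset.prod_image (fun i _ j _ h => hn h)]
      exact hT
  · intro H _ _ N
    obtain ⟨c, ⟨θ⟩⟩ := exists_code H
    have hinj : Function.Injective fun j : ℕ => n (c, j) := fun a b h =>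
      congrArg Prod.snd (hn h)
    obtain ⟨_, ⟨j, rfl⟩, hj⟩ := (Set.infinite_range_of_injective hinj).exists_gt N
    refine ⟨F1' e z (c, j), fd_F1' e z he (c, j), ?_, ?_, ?_⟩
    · rw [finrank_F1' e z he (c, j)]
      exact (hnA (c, j)).1
    · rw [finrank_F1' e z he (c, j)]
      exact hj.le
    · intro K hK
      obtain ⟨M, hM, ⟨ε⟩⟩ := real_K e z he (c, j) K hK
      exact ⟨M, M.toField, M.algebra', hM, ⟨(ε.trans θ).symm⟩⟩

end

end Pool.Agent.R630.ML
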